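import Pool.Agent.W489.Dem.Number
import Pool.Agent.W489.Dem.Hyp
import Pool.Agent.W424.DX3a
import Pool.Agent.W424.DX3
import Pool.Agent.W345.DX4

/-!
A Kobayashi hyperbolic complex projective manifold `X` with a closed irreducible subvariety `Z`
whose conormal variety has intersection number `-8` with the zero section of the cotangent bundle.

`X` is the surface `y^4 = P0(s) (x^4 - z^4)^5 + P1(s) (x^4 + z^4)^5` over the Fermat quartic curve
of the points `s`, and `Z` is a fibre with four cusps.
-/

set_option autoImplicit false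

open W489.Dem

theorem Pool.Agent.Results.MP_225e67_ag.CuspidalFibre.result :
    ∃ (ι : Type) (_ : Fintype ι) (X Z : Set (PS ι)), IsProjManifold X ∧ KobHyp X ∧
      IsSubvariety Z ∧ Z ⊆ X ∧ ConormalNumber X Z (-8) := by
  refine ⟨J, inferInstance, XX, ZZ, ⟨X1.main.1, ?_, ?_⟩, Hyp.main,
    Pool.Agent.W345.DX4.main X1.main.2, ZZ_sub, Number.main⟩
  · rw [cone_XX]
    exact Pool.Agent.W424.DX3.main Pool.Agent.W424.DX3a.main
  · rw [cone_XX]
    exact X2.main
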